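import Mathlib

/-!
# The OSSS inequality fails for fractional query algorithms

We disprove `Var f ≤ ∑ δ_i Inf_i f` for fractional query algorithms.  The function is the
AND of two bits, the process jumps at time `1` to `(1, 1)` with probability `1/4` and to each
of `(-1, 1/3)`, `(1/3, -1)` with probability `3/8`, at time `2` it is rounded to the cube,
and `τ = 1`.
-/

open MeasureTheory Filter Topology
open scoped ENNReal

namespace Pool.Agent.Results.MP_ebdc6e_an.OSSSFails

/-- A fractional query algorithm (discrete time) for uniform inputs in `{-1,1}^n`, living on the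
probability space `(Ω, P)`.  The cube `{-1,1}^n` is `Fin n → ℤˣ`. -/
structure FractionalQueryAlgorithm (n : ℕ) {Ω : Type} [MeasurableSpace Ω] (P : Measure Ω) where
  /-- the process `X(t)` -/
  X : ℕ → Ω → (Fin n → ℝ)
  /-- measurability of the process -/
  stronglyMeasurable : ∀ t, StronglyMeasurable (X t)
  /-- `X(t)` lies in `[-1,1]^n` -/
  mem_cube : ∀ t ω i, X t ω i ∈ Set.Icc (-1 : ℝ) 1
  /-- `X(0) = 0` -/
  init : ∀ ω, X 0 ω = 0
  /-- the terminal value `X(∞)`, a point of the discrete cube -/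
  Xinf : Ω → (Fin n → ℤˣ)
  /-- `X(t)` converges to the terminal value almost surely -/
  tendsto : ∀ᵐ ω ∂P, Tendsto (fun t => X t ω) atTop (𝓝 (fun i => ((Xinf ω i : ℤ) : ℝ)))
  /-- the terminal value has the uniform law on the cube -/
  law : ∀ x : Fin n → ℤˣ, P {ω | Xinf ω = x} = ((2 : ℝ≥0∞) ^ n)⁻¹
  /-- all the products of coordinates are martingales (single coordinates included) for the
  filtration generated by `X` -/
  martingale : ∀ S : Finset (Fin n),
    Martingale (fun t ω => ∏ i ∈ S, X t ω i) (Filtration.natural X stronglyMeasurable) P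
  /-- the stopping time -/
  τ : Ω → WithTop ℕ
  /-- `τ` is a stopping time for the filtration generated by `X` -/
  stopping : IsStoppingTime (Filtration.natural X stronglyMeasurable) τ
  /-- the output map -/
  A : (Fin n → ℝ) → ℝ

variable {n : ℕ} {Ω : Type} [MeasurableSpace Ω] {P : Measure Ω}

/-- The stopped value `X(τ)` (which is `X(∞)` where `τ = ∞`). -/
noncomputable def FractionalQueryAlgorithm.stopped (Q : FractionalQueryAlgorithm n P) (ω : Ω) :
    Fin n → ℝ :=
  match Q.τ ω with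
  | ⊤ => fun i => ((Q.Xinf ω i : ℤ) : ℝ)
  | (t : ℕ) => Q.X t ω

/-- The algorithm computes `f` with zero error: `A(X(τ)) = f(X(∞))` almost surely. -/
def FractionalQueryAlgorithm.Computes (Q : FractionalQueryAlgorithm n P)
    (f : (Fin n → ℤˣ) → ℤˣ) : Prop :=
  ∀ᵐ ω ∂P, Q.A (Q.stopped ω) = ((f (Q.Xinf ω) : ℤ) : ℝ)

/-- The revealment `δ_i = E (X_i(τ) - X_i(0))^2`. -/
noncomputable def FractionalQueryAlgorithm.revealment (Q : FractionalQueryAlgorithm n P)
    (i : Fin n) : ℝ :=
  ∫ ω, (Q.stopped ω i - Q.X 0 ω i) ^ 2 ∂P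

/-- Expectation of a real function under the uniform measure on `{-1,1}^n`. -/
noncomputable def expect (g : (Fin n → ℤˣ) → ℝ) : ℝ := (∑ x, g x) / 2 ^ n

/-- The variance of `f` under the uniform measure. -/
noncomputable def variance (f : (Fin n → ℤˣ) → ℤˣ) : ℝ :=
  expect (fun x => (((f x : ℤ) : ℝ) - expect (fun y => ((f y : ℤ) : ℝ))) ^ 2)

/-- The influence of coordinate `i`: the uniform measure of the points where flipping
coordinate `i` changes the value of `f`. -/
noncomputable def influence (f : (Fin n → ℤˣ) → ℤˣ) (i : Fin n) : ℝ :=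
  expect (fun x => if f x ≠ f (Function.update x i (-x i)) then 1 else 0)

/-! ### The counterexample -/

/-- AND of two bits. -/
def andF (x : Fin 2 → ℤˣ) : ℤˣ := if x 0 = 1 ∧ x 1 = 1 then 1 else -1

/-- The uniform probability on eight points. -/
noncomputable def U8 : Measure (Fin 8) := (8 : ℝ≥0∞)⁻¹ • Measure.count

/-- time one -/
noncomputable def V1 : Fin 8 → Fin 2 → ℝ :=
  ![![1, 1], ![1, 1], ![-1, 1/3], ![-1, 1/3], ![-1, 1/3], ![1/3, -1], ![1/3, -1], ![1/3, -1]]

/-- terminal value -/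
def Y : Fin 8 → Fin 2 → ℤˣ :=
  ![![1, 1], ![1, 1], ![-1, 1], ![-1, 1], ![-1, -1], ![1, -1], ![1, -1], ![-1, -1]]

/-- the process -/
noncomputable def XX : ℕ → Fin 8 → Fin 2 → ℝ
  | 0 => fun _ => 0
  | 1 => V1
  | _ + 2 => fun ω i => ((Y ω i : ℤ) : ℝ)

lemma sm (t : ℕ) : StronglyMeasurable (XX t) := StronglyMeasurable.of_discrete

instance : IsProbabilityMeasure U8 := by
  constructor
  simp only [U8, Measure.smul_apply, smul_eq_mul, Measure.count_univ]
  rw [ENat.card_eq_coe_fintype_card]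
  simp only [Fintype.card_fin]
  exact ENNReal.inv_mul_cancel (by norm_num) (by norm_num)

lemma integral_U8 (g : Fin 8 → ℝ) : ∫ ω, g ω ∂U8 = (1 / 8) * ∑ ω, g ω := by
  rw [U8, integral_smul_measure]
  rw [integral_countable (by exact Integrable.of_finite)]
  simp [Measure.real]

lemma setIntegral_U8 (s : Set (Fin 8)) [DecidablePred (· ∈ s)] (g : Fin 8 → ℝ) :
    ∫ ω in s, g ω ∂U8 = (1 / 8) * ∑ ω, (if ω ∈ s then g ω else 0) := by
  rw [← integral_indicator (MeasurableSet.of_discrete), integral_U8]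
  congr 1
  apply Finset.sum_congr rfl
  intro ω _
  by_cases h : ω ∈ s <;> simp [h]

/-- labels of the atoms at time one -/
def lab : Fin 8 → Fin 3 := ![0, 0, 1, 1, 1, 2, 2, 2]

lemma V1_lab : ∃ h : Fin 3 → Fin 2 → ℝ, V1 = h ∘ lab := by
  refine ⟨![![1, 1], ![-1, 1/3], ![1/3, -1]], ?_⟩
  funext ω
  fin_cases ω <;> simp [V1, lab]

lemma meas_one {s : Set (Fin 8)}
    (hs : MeasurableSet[(Filtration.natural XX sm : Filtration ℕ _) 1] s) :
    ∃ B : Set (Fin 3), s = lab ⁻¹' B := by
  have hle : (Filtration.natural XX sm : Filtration ℕ _) 1 ≤ MeasurableSpace.comap lab ⊤ := by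
    show (⨆ j ≤ 1, MeasurableSpace.comap (XX j) _) ≤ _
    refine iSup₂_le ?_
    intro j hj
    obtain ⟨h, hh⟩ := V1_lab
    rintro t ⟨t', -, rfl⟩
    interval_cases j
    · refine ⟨(fun _ => (0 : Fin 2 → ℝ)) ⁻¹' t', trivial, ?_⟩
      rfl
    · refine ⟨h ⁻¹' t', trivial, ?_⟩
      show lab ⁻¹' (h ⁻¹' t') = V1 ⁻¹' t'
      rw [hh]; rfl
  obtain ⟨B, -, hB⟩ := hle s hs
  exact ⟨B, hB.symm⟩

lemma meas_zero {s : Set (Fin 8)}
    (hs : MeasurableSet[(Filtration.natural XX sm : Filtration ℕ _) 0] s) :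
    s = ∅ ∨ s = Set.univ := by
  have hle : (Filtration.natural XX sm : Filtration ℕ _) 0 ≤ ⊥ := by
    show (⨆ j ≤ 0, MeasurableSpace.comap (XX j) _) ≤ _
    refine iSup₂_le ?_
    intro j hj
    rintro t ⟨t', -, rfl⟩
    interval_cases j
    show @MeasurableSet (Fin 8) ⊥ ((fun _ : Fin 8 => (0 : Fin 2 → ℝ)) ⁻¹' t')
    by_cases h : (0 : Fin 2 → ℝ) ∈ t'
    · have : ((fun _ : Fin 8 => (0 : Fin 2 → ℝ)) ⁻¹' t') = Set.univ := by
        ext; simp [h]
      rw [this]; exact @MeasurableSet.univ _ ⊥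
    · have : ((fun _ : Fin 8 => (0 : Fin 2 → ℝ)) ⁻¹' t') = ∅ := by
        ext; simp [h]
      rw [this]; exact @MeasurableSet.empty _ ⊥
  have := hle s hs
  rwa [MeasurableSpace.measurableSet_bot_iff] at this

lemma finset_cases (S : Finset (Fin 2)) : S = ∅ ∨ S = {0} ∨ S = {1} ∨ S = {0, 1} := by
  revert S; decide

lemma prod_meas (S : Finset (Fin 2)) :
    StronglyAdapted (Filtration.natural XX sm : Filtration ℕ _)
      (fun t ω => ∏ i ∈ S, XX t ω i) := by
  intro t
  apply Finset.stronglyMeasurable_fun_prod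
  intro i _
  have h : StronglyMeasurable[(Filtration.natural XX sm : Filtration ℕ _) t] (XX t) :=
    (Filtration.stronglyAdapted_natural sm) t
  exact (continuous_apply i).comp_stronglyMeasurable h

lemma step (S : Finset (Fin 2)) (t : ℕ) (s : Set (Fin 8))
    (hs : MeasurableSet[(Filtration.natural XX sm : Filtration ℕ _) t] s) :
    ∫ ω in s, ∏ i ∈ S, XX t ω i ∂U8 = ∫ ω in s, ∏ i ∈ S, XX (t + 1) ω i ∂U8 := by
  classical
  match t, hs with
  | 0, hs =>
    rcases meas_zero hs with rfl | rfl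
    · simp
    · rw [setIntegral_U8, setIntegral_U8]
      rcases finset_cases S with rfl | rfl | rfl | rfl <;>
        simp [XX, V1, Fin.sum_univ_succ] <;> norm_num
  | 1, hs =>
    obtain ⟨B, rfl⟩ := meas_one hs
    rw [setIntegral_U8, setIntegral_U8]
    rcases finset_cases S with rfl | rfl | rfl | rfl <;>
      by_cases h0 : (0 : Fin 3) ∈ B <;> by_cases h1 : (1 : Fin 3) ∈ B <;>
      by_cases h2 : (2 : Fin 3) ∈ B <;>
        simp [XX, V1, Y, lab, Fin.sum_univ_succ, h0, h1, h2] <;> norm_num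
  | (k + 2), hs => rfl

lemma mart (S : Finset (Fin 2)) :
    Martingale (fun t ω => ∏ i ∈ S, XX t ω i) (Filtration.natural XX sm) U8 :=
  martingale_of_setIntegral_eq_succ (prod_meas S) (fun _ => Integrable.of_finite)
    (fun t s hs => step S t s hs)

lemma sum_cube (g : (Fin 2 → ℤˣ) → ℝ) :
    ∑ x, g x = g ![1, 1] + g ![1, -1] + g ![-1, 1] + g ![-1, -1] := by
  rw [← Fintype.sum_equiv (finTwoArrowEquiv ℤˣ).symm (fun p => g ![p.1, p.2]) g
    (fun p => by rfl), Fintype.sum_prod_type]
  have hu : (Finset.univ : Finset ℤˣ) = {1, -1} := by decide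
  have hne : (1 : ℤˣ) ∉ ({-1} : Finset ℤˣ) := by decide
  simp only [hu, Finset.sum_insert hne, Finset.sum_singleton]
  ring

lemma influence_and (i : Fin 2) : influence andF i = 1 / 2 := by
  have h1 : ∀ x : Fin 2 → ℤˣ, (if andF x ≠ andF (Function.update x i (-x i)) then (1 : ℝ) else 0)
      = if x (1 - i) = 1 then 1 else 0 := by
    intro x
    have : andF x ≠ andF (Function.update x i (-x i)) ↔ x (1 - i) = 1 := by
      revert x i; decide
    simp only [this]
  unfold influence expect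
  simp only [h1]
  rw [sum_cube]
  have hne : (-1 : ℤˣ) ≠ 1 := by decide
  fin_cases i <;> simp [hne] <;> norm_num

lemma variance_and : variance andF = 3 / 4 := by
  have hne : (-1 : ℤˣ) ≠ 1 := by decide
  unfold variance expect
  rw [sum_cube, sum_cube]
  simp [andF, hne]
  norm_num

/-- The algorithm. -/
noncomputable def QQ : FractionalQueryAlgorithm 2 U8 where
  X := XX
  stronglyMeasurable := sm
  mem_cube := by
    intro t ω i
    match t with
    | 0 => simp [XX]
    | 1 => fin_cases ω <;> fin_cases i <;> simp [XX, V1] <;> norm_num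
    | k + 2 =>
      rcases Int.units_eq_one_or (Y ω i) with h | h <;> simp [XX, h]
  init := by intro ω; rfl
  Xinf := Y
  tendsto := by
    refine Eventually.of_forall (fun ω => ?_)
    apply tendsto_const_nhds.congr'
    filter_upwards [eventually_ge_atTop 2] with t ht
    obtain ⟨k, rfl⟩ := Nat.exists_eq_add_of_le' ht
    rfl
  law := by
    intro x
    have hx : ∃ a b : ℤˣ, x = ![a, b] := ⟨x 0, x 1, by funext i; fin_cases i <;> rfl⟩
    obtain ⟨a, b, rfl⟩ := hx
    have key : ∀ T : Finset (Fin 8), T.card = 2 → U8 (T : Set (Fin 8)) = ((2 : ℝ≥0∞) ^ 2)⁻¹ := by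
      intro T hT
      rw [U8, Measure.smul_apply, Measure.count_apply_finset, hT, smul_eq_mul]
      have e8 : (8 : ℝ≥0∞) = 2 ^ 2 * 2 := by norm_num
      rw [e8, ENNReal.mul_inv (Or.inl (by norm_num)) (Or.inl (by norm_num)), mul_assoc]
      have : ((2 : ℝ≥0∞))⁻¹ * ((2 : ℕ) : ℝ≥0∞) = 1 := by
        rw [Nat.cast_ofNat]
        exact ENNReal.inv_mul_cancel (by norm_num) (by norm_num)
      rw [this, mul_one]
    have h : {ω | Y ω = ![a, b]} = ((Finset.univ.filter fun ω => Y ω = ![a, b] : Finset (Fin 8)) :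
        Set (Fin 8)) := by ext; simp
    rw [h]
    apply key
    clear h key
    revert a b
    decide
  martingale := mart
  τ := fun _ => ((1 : ℕ) : WithTop ℕ)
  stopping := isStoppingTime_const _ 1
  A := fun x => if x 0 = 1 ∧ x 1 = 1 then 1 else -1

/-- **Negative answer to Q1**: there are `n`, a function `f : {-1,1}^n → {-1,1}` and a
fractional query algorithm computing `f` with zero error such that
`∑ δ_i Inf_i(f) < Var(f)`. -/
theorem result : ∃ (n : ℕ) (f : (Fin n → ℤˣ) → ℤˣ) (Ω : Type) (_ : MeasurableSpace Ω)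
    (P : Measure Ω) (_ : IsProbabilityMeasure P) (Q : FractionalQueryAlgorithm n P),
    Q.Computes f ∧ ∑ i, Q.revealment i * influence f i < variance f := by
  refine ⟨2, andF, Fin 8, inferInstance, U8, inferInstance, QQ, ?_, ?_⟩
  · refine Eventually.of_forall (fun ω => ?_)
    show QQ.A (V1 ω) = ((andF (Y ω) : ℤ) : ℝ)
    fin_cases ω <;> simp [QQ, V1, Y, andF]
  · have hr : ∀ i, QQ.revealment i = 2 / 3 := by
      intro i
      show ∫ ω, (V1 ω i - (0 : Fin 2 → ℝ) i) ^ 2 ∂U8 = 2 / 3
      rw [integral_U8]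
      fin_cases i <;> simp [V1, Fin.sum_univ_succ] <;> norm_num
    simp only [hr, influence_and, variance_and, Fin.sum_univ_two]
    norm_num

end Pool.Agent.Results.MP_ebdc6e_an.OSSSFails
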